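import Pool.Agent.MP_7915da_nt.D14.Defs

/-! Row BAD of campaign h14d. -/

namespace Pool.Agent.D14

open Finset

theorem bad_pt (hLCM : LCM_s) (hDEN : DEN_s) (d X : ℕ) (R : Finset ℕ) (hd : 1 ≤ d) (hX : d ≤ X)
    (hR : ∀ p, Rel p d → p ∈ R) (hb : ¬Good d) :
    (d : ℝ) * Real.log 2 ≤ Real.log 2 + (1 + (#R : ℝ)) * Real.log X +
      ∑ p ∈ R, ((an d).factorization p : ℝ) * Real.log p := by
  obtain ⟨h1, h2⟩ := hDEN d R hd hR
  have h4 : 2 ^ d ≤ 2 * d * (an d * d ^ #R) := (hLCM d hd).trans (Nat.mul_le_mul_left _ h1)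
  have h0 : an d ≠ 0 := by
    intro h0
    rw [h0, zero_mul, mul_zero] at h4
    have := Nat.two_pow_pos d
    omega
  have hd0 : (0 : ℝ) < d := by exact_mod_cast hd
  have ha0 : (0 : ℝ) < an d := by exact_mod_cast Nat.pos_of_ne_zero h0
  have h5 : (2 : ℝ) ^ d ≤ 2 * d * (an d * (d : ℝ) ^ #R) := by exact_mod_cast h4
  have h6 := Real.log_le_log (by positivity) h5
  rw [Real.log_pow, Real.log_mul (by positivity) (by positivity),
    Real.log_mul (by positivity) (by positivity), Real.log_mul (by positivity) (by positivity),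
    Real.log_pow] at h6
  have h7 : Real.log d ≤ Real.log X := Real.log_le_log hd0 (by exact_mod_cast hX)
  have h8 : Real.log (an d) ≤ ∑ p ∈ R, ((an d).factorization p : ℝ) * Real.log p := by
    rw [Real.log_nat_eq_sum_factorization, Finsupp.sum]
    refine sum_le_sum_of_subset_of_nonneg (fun p hp => ?_) (fun p _ _ => ?_)
    · rw [Nat.support_factorization] at hp
      have hp1 := Nat.prime_of_mem_primeFactors hp
      have hp2 := Nat.dvd_of_mem_primeFactors hp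
      refine h2 p hp1 ?_ hp2
      by_contra hlt
      exact hb ⟨p, hp1, not_le.1 hlt, hp2⟩
    · exact mul_nonneg (Nat.cast_nonneg _) (Real.log_natCast_nonneg _)
  have h9 : (#R : ℝ) * Real.log d ≤ (#R : ℝ) * Real.log X :=
    mul_le_mul_of_nonneg_left h7 (Nat.cast_nonneg _)
  linarith

theorem bad_num (y r L c : ℝ) (hy : 2 ≤ y) (hc0 : 0 < c) (hc : 3584 ≤ c * y) (_hr0 : 0 ≤ r)
    (hr : r ≤ 3 * y ^ 12) (hL1 : 1 ≤ L) (hL : L ≤ 16 * y) :
    Real.log 2 + (1 + r) * L + r * ((2 + L) * L) ≤ c * y ^ 16 := by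
  have hu : 1 ≤ y ^ 12 := one_le_pow₀ (by linarith)
  have hl2 : Real.log 2 ≤ 1 := by
    have := Real.log_two_lt_d9
    linarith
  have hLL : L ≤ L * L := by nlinarith
  have hq : L * L ≤ 256 * y ^ 2 := by nlinarith
  have e : y ^ 16 = y ^ 12 * (y ^ 2 * y * y) := by ring
  rw [e]
  generalize y ^ 12 = u at hu hr ⊢
  have a1 : 1 ≤ u * (L * L) := by nlinarith
  have a2 : (1 + r) * L ≤ 4 * u * (L * L) :=
    mul_le_mul (by linarith) hLL (by linarith) (by linarith)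
  have a3 : r * ((2 + L) * L) ≤ 3 * u * (3 * (L * L)) :=
    mul_le_mul hr (by nlinarith) (by positivity) (by linarith)
  have a4 : u * (L * L) ≤ u * (256 * y ^ 2) := mul_le_mul_of_nonneg_left hq (by linarith)
  have a5 : 3584 * y ^ 2 ≤ c * (y ^ 2 * y * y) := by
    have b1 : 3584 * y ^ 2 ≤ c * y * y ^ 2 := mul_le_mul_of_nonneg_right hc (by positivity)
    have b2 : c * y * y ^ 2 * 1 ≤ c * y * y ^ 2 * y :=
      mul_le_mul_of_nonneg_left (by linarith) (by positivity)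
    linarith
  have a6 : u * (3584 * y ^ 2) ≤ u * (c * (y ^ 2 * y * y)) :=
    mul_le_mul_of_nonneg_left a5 (by linarith)
  linarith

open Classical in
theorem bad_row (hLCM : LCM_s) (hDEN : DEN_s) (hCNT : CNT_s) (hSUM : SUM_s) : BAD_s := by
  intro ε hε
  have hl0 : 0 < Real.log 2 := Real.log_pos (by norm_num)
  have hc0 : 0 < ε ^ 2 * Real.log 2 / 4 := by positivity
  obtain ⟨m, hm⟩ := exists_nat_ge (3584 / (ε ^ 2 * Real.log 2 / 4) + 2)
  have hpos : 0 < 3584 / (ε ^ 2 * Real.log 2 / 4) := by positivity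
  have hy : (2 : ℝ) ≤ m := by linarith
  have hm2 : 2 ≤ m := by exact_mod_cast hy
  have hc : 3584 ≤ (ε ^ 2 * Real.log 2 / 4) * m := by
    have h1 : 3584 / (ε ^ 2 * Real.log 2 / 4) ≤ m := by linarith
    rw [div_le_iff₀ hc0] at h1
    linarith
  obtain ⟨R, hRp, hRc, hR⟩ := hCNT (m ^ 4) (Nat.one_le_pow _ _ (by omega))
  obtain ⟨X, hX⟩ : ∃ X : ℕ, X = (m ^ 4) ^ 4 := ⟨_, rfl⟩
  rw [← hX] at hR
  have hXr : (X : ℝ) = (m : ℝ) ^ 16 := by
    rw [hX]
    push_cast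
    ring
  have hX2 : 2 ≤ X := by
    have h1 : (m : ℝ) ≤ (m : ℝ) ^ 16 := le_self_pow₀ (by linarith) (by norm_num)
    have h2 : (2 : ℝ) ≤ X := by linarith
    exact_mod_cast h2
  have hX0 : (0 : ℝ) < X := by exact_mod_cast (by omega : 0 < X)
  have hLe : Real.log X = 16 * Real.log m := by
    rw [hXr, Real.log_pow]
    norm_num
  have hL1 : 1 ≤ Real.log X := by
    have h1 : Real.log 2 ≤ Real.log m := Real.log_le_log (by norm_num) hy
    have h2 := Real.log_two_gt_d9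
    linarith
  have hL : Real.log X ≤ 16 * m := by
    have h1 := Real.log_le_sub_one_of_pos (by linarith : (0 : ℝ) < m)
    linarith
  have hr : (#R : ℝ) ≤ 3 * (m : ℝ) ^ 12 := by
    have h1 : (#R : ℝ) ≤ 3 * ((m : ℝ) ^ 4) ^ 3 := by exact_mod_cast hRc
    have h2 : ((m : ℝ) ^ 4) ^ 3 = (m : ℝ) ^ 12 := by ring
    linarith
  have hnum := bad_num m (#R) (Real.log X) _ hy hc0 hc (Nat.cast_nonneg _) hr hL1 hL
  rw [← hXr] at hnum
  refine ⟨X, by omega, ?_⟩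
  obtain ⟨K, hK⟩ : ∃ K : ℝ, K = Real.log 2 + (1 + (#R : ℝ)) * Real.log X := ⟨_, rfl⟩
  have hK0 : 0 ≤ K := by
    rw [hK]
    positivity
  have hS0 : ∀ d : ℕ, 0 ≤ ∑ p ∈ R, ((an d).factorization p : ℝ) * Real.log p := fun d =>
    sum_nonneg fun p _ => mul_nonneg (Nat.cast_nonneg _) (Real.log_natCast_nonneg _)
  have hsub : {d ∈ Icc 1 X | ¬Good d} ⊆ Icc 1 ⌊ε * X / 2⌋₊ ∪
      {d ∈ Icc 1 X | ¬Good d ∧ ε * X / 2 ≤ (d : ℝ)} := by
    intro d hd
    rw [mem_filter, mem_Icc] at hd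
    rw [mem_union, mem_filter, mem_Icc, mem_Icc]
    rcases le_total (d : ℝ) (ε * X / 2) with h | h
    · exact Or.inl ⟨hd.1.1, Nat.le_floor h⟩
    · exact Or.inr ⟨hd.1, hd.2, h⟩
  obtain ⟨B, hB⟩ : ∃ B : Finset ℕ, B = {d ∈ Icc 1 X | ¬Good d ∧ ε * X / 2 ≤ (d : ℝ)} := ⟨_, rfl⟩
  rw [← hB] at hsub
  have hc1 : #{d ∈ Icc 1 X | ¬Good d} ≤ ⌊ε * X / 2⌋₊ + #B := by
    have h1 := (card_le_card hsub).trans (card_union_le _ _)
    rwa [Nat.card_Icc, Nat.add_sub_cancel] at h1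
  have hc2 : (#{d ∈ Icc 1 X | ¬Good d} : ℝ) ≤ ⌊ε * X / 2⌋₊ + (#B : ℝ) := by exact_mod_cast hc1
  have hfl : (⌊ε * X / 2⌋₊ : ℝ) ≤ ε * X / 2 := Nat.floor_le (by positivity)
  have h1 : #B • (ε * X / 2 * Real.log 2) ≤
      ∑ d ∈ B, (K + ∑ p ∈ R, ((an d).factorization p : ℝ) * Real.log p) := by
    refine card_nsmul_le_sum _ _ _ fun d hd => ?_
    rw [hB, mem_filter, mem_Icc] at hd
    have g1 := bad_pt hLCM hDEN d X R hd.1.1 hd.1.2 (hR d hd.1.2) hd.2.1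
    have g2 := mul_le_mul_of_nonneg_right hd.2.2 hl0.le
    rw [hK]
    linarith
  have h2 : ∑ d ∈ B, (K + ∑ p ∈ R, ((an d).factorization p : ℝ) * Real.log p) ≤
      ∑ d ∈ Icc 1 X, (K + ∑ p ∈ R, ((an d).factorization p : ℝ) * Real.log p) := by
    refine sum_le_sum_of_subset_of_nonneg ?_ fun d _ _ => add_nonneg hK0 (hS0 d)
    rw [hB]
    exact filter_subset _ _
  have h3 : ∑ p ∈ R, ∑ d ∈ Icc 1 X, ((an d).factorization p : ℝ) * Real.log p ≤
      #R • ((X : ℝ) * (2 + Real.log X) * Real.log X) :=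
    sum_le_card_nsmul _ _ _ fun p hp => hSUM p X (hRp p hp) hX2
  rw [sum_add_distrib (s := Icc 1 X), sum_const, Nat.card_Icc, Nat.add_sub_cancel, sum_comm (s := Icc 1 X),
    nsmul_eq_mul] at h2
  rw [nsmul_eq_mul] at h1 h3
  have h4 := mul_le_mul_of_nonneg_left hnum hX0.le
  rw [← hK] at h4
  have h5 : (#B : ℝ) * (ε * X / 2 * Real.log 2) ≤ ε * X / 2 * (ε * X / 2 * Real.log 2) := by
    linarith
  have h6 : (#B : ℝ) ≤ ε * X / 2 := le_of_mul_le_mul_right h5 (by positivity)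
  linarith

end Pool.Agent.D14
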