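import Pool.Agent.MP_7915da_nt.D14.Defs

namespace Pool.Agent.D14

open Finset

theorem cnt75_den (j : ℕ) : (harmonic j).den ∣ j.factorial := by
  induction j with
  | zero => simp
  | succ j ih =>
    rw [harmonic_succ, Nat.factorial_succ, mul_comm]
    refine (Rat.add_den_dvd _ _).trans (mul_dvd_mul ih ?_)
    rw [Rat.inv_natCast_den_of_pos (Nat.succ_pos j)]

theorem cnt75_le (j : ℕ) : harmonic j ≤ j := by
  induction j with
  | zero => simp
  | succ j ih =>
    rw [harmonic_succ]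
    have h : (((j + 1 : ℕ) : ℚ))⁻¹ ≤ 1 :=
      inv_le_one_of_one_le₀ (by exact_mod_cast Nat.succ_le_succ (Nat.zero_le j))
    push_cast at h ⊢
    linarith only [ih, h]

theorem cnt75_an {j : ℕ} (hj : 1 ≤ j) : an j ≠ 0 ∧ an j ≤ j * j.factorial := by
  have hpos : 0 < harmonic j := harmonic_pos (by omega)
  have hn : 0 < (harmonic j).num := Rat.num_pos.2 hpos
  refine ⟨Int.natAbs_ne_zero.2 hn.ne', ?_⟩
  have h1 : ((an j : ℕ) : ℚ) = harmonic j * (harmonic j).den := by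
    rw [Rat.mul_den_eq_num, an, Nat.cast_natAbs, abs_of_pos hn]
  have h2 : (harmonic j).den ≤ j.factorial := Nat.le_of_dvd j.factorial_pos (cnt75_den j)
  have h3 : ((an j : ℕ) : ℚ) ≤ (j : ℚ) * (j.factorial : ℕ) := by
    rw [h1]
    exact mul_le_mul (cnt75_le j) (by exact_mod_cast h2) (by positivity) (by positivity)
  exact_mod_cast h3

theorem cnt75_card {j J : ℕ} (hj : 1 ≤ j) (hJ : j ≤ J) : #(an j).primeFactors ≤ 2 * J ^ 2 := by
  obtain ⟨h0, h1⟩ := cnt75_an hj
  have h2 : 2 ^ #(an j).primeFactors ≤ an j :=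
    (Finset.pow_card_le_prod _ (fun p => p) 2 fun p hp =>
      (Nat.prime_of_mem_primeFactors hp).two_le).trans
      (Nat.le_of_dvd (Nat.pos_of_ne_zero h0) (Nat.prod_primeFactors_dvd _))
  have h3 : j * j.factorial ≤ (2 ^ j) ^ (j + 1) := by
    have h4 : j ≤ 2 ^ j := Nat.lt_two_pow_self.le
    calc j * j.factorial ≤ j * j ^ j := Nat.mul_le_mul_left _ (Nat.factorial_le_pow j)
      _ = j ^ (j + 1) := by ring
      _ ≤ (2 ^ j) ^ (j + 1) := Nat.pow_le_pow_left h4 _
  rw [← pow_mul] at h3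
  have h5 := (Nat.pow_le_pow_iff_right (by norm_num : 1 < 2)).1 (h2.trans (h1.trans h3))
  nlinarith

theorem cnt_row (hR : REL_s) : CNT_s := by
  intro J hJ
  refine ⟨(Icc 1 (J ^ 3)).filter Nat.Prime ∪ (Icc 1 J).biUnion fun j => (an j).primeFactors,
    fun p hp => ?_, ?_, fun d hd p hp => ?_⟩
  · rcases mem_union.1 hp with h | h
    · exact (mem_filter.1 h).2
    · obtain ⟨j, -, h⟩ := mem_biUnion.1 h
      exact Nat.prime_of_mem_primeFactors h
  · have h1 : #((Icc 1 (J ^ 3)).filter Nat.Prime) ≤ J ^ 3 :=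
      (card_filter_le _ _).trans (by simp)
    have h2 : #((Icc 1 J).biUnion fun j => (an j).primeFactors) ≤ J * (2 * J ^ 2) := by
      refine card_biUnion_le.trans ((sum_le_card_nsmul _ _ (2 * J ^ 2) fun j hj => ?_).trans ?_)
      · exact cnt75_card (mem_Icc.1 hj).1 (mem_Icc.1 hj).2
      · simp
    calc _ ≤ J ^ 3 + J * (2 * J ^ 2) := (card_union_le _ _).trans (Nat.add_le_add h1 h2)
      _ = 3 * J ^ 3 := by ring
  · rcases le_or_gt p (J ^ 3) with h | h
    · exact mem_union_left _ (mem_filter.2 ⟨mem_Icc.2 ⟨hp.1.one_le, h⟩, hp.1⟩)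
    · have h1 : d < p ^ 2 := by
        calc d ≤ J ^ 4 := hd
          _ ≤ J ^ 6 := Nat.pow_le_pow_right hJ (by norm_num)
          _ = (J ^ 3) ^ 2 := by ring
          _ < p ^ 2 := Nat.pow_lt_pow_left h (by norm_num)
      have h2 : 1 ≤ d / p := (Nat.one_le_div_iff hp.1.pos).2 hp.2.1
      have h3 : d / p ≤ J := by
        refine Nat.div_le_of_le_mul (hd.trans ?_)
        calc J ^ 4 = J ^ 3 * J := by ring
          _ ≤ p * J := Nat.mul_le_mul_right _ h.le
      exact mem_union_right _ (mem_biUnion.2 ⟨d / p, mem_Icc.2 ⟨h2, h3⟩,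
        Nat.mem_primeFactors.2 ⟨hp.1, hR p d hp h1, (cnt75_an h2).1⟩⟩)

end Pool.Agent.D14
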