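import Pool.Agent.MP_7915da_nt.D14.Defs

namespace Pool.Agent.D14

open Finset

theorem cov_row (hS : SPLIT_s) : COV_s := by
  intro p d k n hp hd hpa h1 h2 he
  obtain ⟨u, v, hv, h⟩ := hS p k n hp
  rw [Nat.div_eq_of_lt_le h1 h2] at h
  have hb : ¬p ∣ (harmonic d).den := fun hb =>
    hp.one_lt.ne' (Nat.eq_one_of_dvd_coprimes (harmonic d).reduced hpa hb)
  obtain ⟨a, ha⟩ : (p : ℤ) ∣ (harmonic d).num := Int.natCast_dvd.2 hpa
  have hv0 : (v : ℚ) ≠ 0 := by
    rintro h0
    exact hv (by rw [Nat.cast_eq_zero.1 h0]; exact dvd_zero p)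
  have hp0 : (p : ℚ) ≠ 0 := by exact_mod_cast hp.ne_zero
  have hb0 : ((harmonic d).den : ℚ) ≠ 0 := by exact_mod_cast (harmonic d).den_nz
  have hd' : harmonic d = (p : ℚ) * a / (harmonic d).den := by
    have := (Rat.num_div_den (harmonic d)).symm
    rw [ha] at this
    exact_mod_cast this
  have hn : harmonic n = Rat.divInt (a * v + u * (harmonic d).den)
      ((p ^ k * ((harmonic d).den * v) : ℕ) : ℤ) := by
    rw [Rat.divInt_eq_div, h]
    generalize (harmonic d).den = b at hd' hb0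
    rw [hd']
    push_cast
    field_simp
    ring
  have h3 : (harmonic n).den ∣ p ^ k * ((harmonic d).den * v) := by
    have := Rat.den_dvd (a * v + u * (harmonic d).den) ((p ^ k * ((harmonic d).den * v) : ℕ) : ℤ)
    rw [← hn] at this
    exact_mod_cast this
  have h4 : p ^ (k + 1) ∣ LL n := by
    refine Finset.dvd_lcm (f := id) (mem_Icc.2 ⟨Nat.one_le_iff_ne_zero.2 (pow_ne_zero _ hp.ne_zero), ?_⟩)
    exact le_trans (Nat.le_mul_of_pos_left _ hd) h1
  rw [he] at h3
  have h5 := h4.trans h3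
  rw [pow_succ] at h5
  have h6 := Nat.dvd_of_mul_dvd_mul_left (pow_pos hp.pos k) h5
  rcases (Nat.Prime.dvd_mul hp).1 h6 with h7 | h7
  · exact hb h7
  · exact hv h7

end Pool.Agent.D14
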