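import Pool.Agent.MP_7915da_nt.D14.Defs

namespace Pool.Agent.D14

open Finset

theorem den_one_le (d : ℕ) (hd : 1 ≤ d) : (1 : ℚ) ≤ harmonic d := by
  induction d, hd using Nat.le_induction with
  | base => simp [harmonic]
  | succ n _ ih =>
    rw [harmonic_succ]
    have : (0 : ℚ) ≤ ((n + 1 : ℕ) : ℚ)⁻¹ := by positivity
    linarith

theorem den_le_an (d : ℕ) (hd : 1 ≤ d) : (harmonic d).den ≤ an d := by
  have h := den_one_le d hd
  have h1 : ((harmonic d).den : ℤ) ≤ (harmonic d).num := by
    have e := Rat.num_div_den (harmonic d)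
    have hp : (0 : ℚ) < (harmonic d).den := by exact_mod_cast (harmonic d).den_pos
    rw [← e, le_div_iff₀ hp, one_mul] at h
    exact_mod_cast h
  unfold an
  omega

theorem den_row : DEN_s := by
  intro d R hd hR
  have hd0 : d ≠ 0 := by omega
  refine ⟨?_, fun p hp hpd hdvd => hR p ⟨hp, hpd, fun h => ?_⟩⟩
  · have hpos : 0 < ∏ p ∈ R, p ^ Nat.log p d := by
      refine Finset.prod_pos fun p _ => ?_
      rcases Nat.eq_zero_or_pos p with h0 | h0
      · subst h0; simp
      · exact pow_pos h0 _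
    have hdvd : LL d ∣ (harmonic d).den * ∏ p ∈ R, p ^ Nat.log p d := by
      unfold LL
      refine Finset.lcm_dvd fun i hi => ?_
      obtain ⟨h1, h2⟩ := Finset.mem_Icc.1 hi
      refine (Nat.dvd_iff_prime_pow_dvd_dvd _ _).2 fun p k hp hk => ?_
      rcases Nat.eq_zero_or_pos k with h0 | h0
      · subst h0; simp
      have h3 : p ^ k ≤ d := (Nat.le_of_dvd h1 hk).trans h2
      have h4 : p ≤ d := (Nat.le_self_pow (by omega) p).trans h3
      have h5 : p ^ k ∣ p ^ Nat.log p d := pow_dvd_pow p (Nat.le_log_of_pow_le hp.one_lt h3)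
      by_cases hr : p ^ Nat.log p d ∣ (harmonic d).den
      · exact (h5.trans hr).mul_right _
      · exact (h5.trans (Finset.dvd_prod_of_mem (fun p => p ^ Nat.log p d)
          (hR p ⟨hp, h4, hr⟩))).mul_left _
    refine (Nat.le_of_dvd (Nat.mul_pos (harmonic d).den_pos hpos) hdvd).trans ?_
    exact Nat.mul_le_mul (den_le_an d hd)
      (Finset.prod_le_pow_card R _ d fun p _ => Nat.pow_log_le_self p hd0)
  · have h1 : 0 < Nat.log p d := Nat.log_pos hp.one_lt hpd
    have h2 : p ∣ (harmonic d).den := (dvd_pow_self p h1.ne').trans h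
    have h3 : p ∣ Nat.gcd (an d) (harmonic d).den := Nat.dvd_gcd hdvd h2
    have h4 : Nat.gcd (an d) (harmonic d).den = 1 := (harmonic d).reduced
    rw [h4] at h3
    exact hp.one_lt.ne' (Nat.dvd_one.1 h3)

end Pool.Agent.D14

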