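import Pool.Agent.MP_7915da_nt.D14.Defs

namespace Pool.Agent.D14

open Finset

theorem DIR_box {a b η : ℝ} (hη : 0 < η) (ha : 0 ≤ a) (h : ⌊a / η⌋₊ = ⌊b / η⌋₊) : b - a ≤ η := by
  have h1 : (⌊a / η⌋₊ : ℝ) ≤ a / η := Nat.floor_le (div_nonneg ha hη.le)
  have h2 : b / η < (⌊b / η⌋₊ : ℝ) + 1 := Nat.lt_floor_add_one _
  rw [← h] at h2
  have h3 : b / η < a / η + 1 := by linarith
  rw [div_add_one hη.ne', div_lt_div_iff_of_pos_right hη] at h3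
  linarith

theorem DIR_row : DIR_s := by
  intro S hS δ M hδ
  obtain ⟨η, hη, he⟩ : ∃ η : ℝ, 0 < η ∧ Real.exp (2 * η) = 1 + δ := by
    have h1 : 0 < Real.log (1 + δ) := Real.log_pos (by linarith)
    refine ⟨Real.log (1 + δ) / 2, by linarith, ?_⟩
    rw [mul_div_cancel₀ _ (two_ne_zero), Real.exp_log (by linarith)]
  obtain ⟨N, hN0, hN⟩ : ∃ N : ℝ, 0 ≤ N ∧ M + η ≤ N :=
    ⟨|M| + η, by positivity, by linarith [le_abs_self M]⟩
  have hL : ∀ p : S, 0 < Real.log ((p : ℕ) : ℝ) := fun p =>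
    Real.log_pos (by exact_mod_cast hS p p.2)
  obtain ⟨k, hk⟩ : ∃ k : S → ℕ → ℕ, ∀ p n, k p n = ⌊N * n / Real.log ((p : ℕ) : ℝ)⌋₊ :=
    ⟨_, fun _ _ => rfl⟩
  obtain ⟨r, hr⟩ : ∃ r : S → ℕ → ℝ, ∀ p n, r p n = N * n - Real.log ((p : ℕ) : ℝ) * k p n :=
    ⟨_, fun _ _ => rfl⟩
  have hr0 : ∀ p n, 0 ≤ r p n := by
    intro p n
    have h1 : (k p n : ℝ) ≤ N * n / Real.log ((p : ℕ) : ℝ) := by
      rw [hk]
      exact Nat.floor_le (div_nonneg (by positivity) (hL p).le)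
    rw [le_div_iff₀ (hL p)] at h1
    rw [hr]
    linarith
  have hr1 : ∀ p n, r p n ≤ Real.log ((p : ℕ) : ℝ) := by
    intro p n
    have h1 : N * n / Real.log ((p : ℕ) : ℝ) < (k p n : ℝ) + 1 := by
      rw [hk]
      exact Nat.lt_floor_add_one _
    rw [div_lt_iff₀ (hL p)] at h1
    rw [hr]
    linarith
  have hfin : (Set.pi Set.univ fun p : S => Set.Iic ⌊Real.log ((p : ℕ) : ℝ) / η⌋₊).Finite :=
    Set.Finite.pi fun p => Set.finite_Iic _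
  have hmap : Set.MapsTo (fun (n : ℕ) (p : S) => ⌊r p n / η⌋₊) Set.univ
      (Set.pi Set.univ fun p : S => Set.Iic ⌊Real.log ((p : ℕ) : ℝ) / η⌋₊) :=
    fun n _ p _ => Nat.floor_le_floor (div_le_div_of_nonneg_right (hr1 p n) hη.le)
  obtain ⟨i, -, j, -, hij, hf⟩ :=
    (Set.infinite_univ (α := ℕ)).exists_lt_map_eq_of_mapsTo hmap hfin
  have hij' : (i : ℝ) + 1 ≤ j := by exact_mod_cast hij
  refine ⟨Real.exp (N * j - N * i - η), ?_, fun p hp => ?_⟩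
  · have h1 := Real.add_one_le_exp (N * j - N * i - η)
    have h2 : N * (i + 1) ≤ N * j := mul_le_mul_of_nonneg_left hij' hN0
    nlinarith
  · have hb : ⌊r ⟨p, hp⟩ i / η⌋₊ = ⌊r ⟨p, hp⟩ j / η⌋₊ := congrFun hf ⟨p, hp⟩
    have b1 := DIR_box hη (hr0 _ _) hb
    have b2 := DIR_box hη (hr0 _ _) hb.symm
    have hkk : k ⟨p, hp⟩ i ≤ k ⟨p, hp⟩ j := by
      rw [hk, hk]
      refine Nat.floor_le_floor (div_le_div_of_nonneg_right ?_ (hL _).le)
      exact mul_le_mul_of_nonneg_left (by linarith) hN0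
    have hp0 : (0 : ℝ) < p := by
      have := hS p hp
      exact_mod_cast (by omega : 0 < p)
    have hpow : (p : ℝ) ^ (k ⟨p, hp⟩ j - k ⟨p, hp⟩ i)
        = Real.exp (Real.log p * k ⟨p, hp⟩ j - Real.log p * k ⟨p, hp⟩ i) := by
      rw [← mul_sub, ← Nat.cast_sub hkk, mul_comm, Real.exp_nat_mul, Real.exp_log hp0]
    rw [hr, hr] at b1 b2
    refine ⟨k ⟨p, hp⟩ j - k ⟨p, hp⟩ i, ?_, ?_⟩
    · rw [hpow]
      exact Real.exp_le_exp.mpr (by simp only at b1 b2; linarith)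
    · rw [hpow, ← he, ← Real.exp_add]
      exact Real.exp_le_exp.mpr (by simp only at b1 b2; linarith)

end Pool.Agent.D14
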