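import Mathlib

/-! Statements of the rows of campaign h14d: denominators of harmonic numbers. -/

namespace Pool.Agent.D14

open Finset

/-- `lcm(1, …, n)`. -/
def LL (n : ℕ) : ℕ := (Icc 1 n).lcm id

/-- The reduced numerator of the harmonic number. -/
def an (d : ℕ) : ℕ := (harmonic d).num.natAbs

/-- Some prime above `d` divides the numerator. -/
def Good (d : ℕ) : Prop := ∃ p : ℕ, p.Prime ∧ d < p ∧ p ∣ an d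

/-- The denominator misses the top power of `p`. -/
def Rel (p d : ℕ) : Prop := p.Prime ∧ p ≤ d ∧ ¬p ^ Nat.log p d ∣ (harmonic d).den

def LCM_s : Prop := ∀ d : ℕ, 1 ≤ d → 2 ^ d ≤ 2 * d * LL d

def DEN_s : Prop := ∀ (d : ℕ) (R : Finset ℕ), 1 ≤ d → (∀ p, Rel p d → p ∈ R) →
  LL d ≤ an d * d ^ #R ∧ ∀ p : ℕ, p.Prime → p ≤ d → p ∣ an d → p ∈ R

def SPLIT_s : Prop := ∀ p k n : ℕ, p.Prime → ∃ (u : ℤ) (v : ℕ), ¬p ∣ v ∧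
  harmonic n = harmonic (n / p ^ (k + 1)) / (p : ℚ) ^ (k + 1) + (u : ℚ) / ((p : ℚ) ^ k * v)

def REL_s : Prop := ∀ p d : ℕ, Rel p d → d < p ^ 2 → p ∣ an (d / p)

def COV_s : Prop := ∀ p d k n : ℕ, p.Prime → 1 ≤ d → p ∣ an d → d * p ^ (k + 1) ≤ n →
  n < (d + 1) * p ^ (k + 1) → (harmonic n).den ≠ LL n

def GAP_s : Prop := ∀ p w d d' X : ℕ, p.Prime → d < d' → d' ≤ X → p ^ w ∣ an d → p ^ w ∣ an d' →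
  p ^ w ≤ X ^ (d' - d)

def CNT_s : Prop := ∀ J : ℕ, 1 ≤ J → ∃ R : Finset ℕ, (∀ p ∈ R, p.Prime) ∧ #R ≤ 3 * J ^ 3 ∧
  ∀ d ≤ J ^ 4, ∀ p, Rel p d → p ∈ R

def SUM_s : Prop := ∀ p X : ℕ, p.Prime → 2 ≤ X →
  ∑ d ∈ Icc 1 X, ((an d).factorization p : ℝ) * Real.log p ≤ X * (2 + Real.log X) * Real.log X

open Classical in
def BAD_s : Prop := ∀ ε : ℝ, 0 < ε → ∃ X : ℕ, 1 ≤ X ∧ (#{d ∈ Icc 1 X | ¬Good d} : ℝ) ≤ ε * X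

def DIR_s : Prop := ∀ S : Finset ℕ, (∀ p ∈ S, 2 ≤ p) → ∀ δ M : ℝ, 0 < δ →
  ∃ t : ℝ, M ≤ t ∧ ∀ p ∈ S, ∃ k : ℕ, t ≤ (p : ℝ) ^ k ∧ (p : ℝ) ^ k ≤ (1 + δ) * t

def TOP_s : Prop := ∀ ε : ℝ, 0 < ε → ∀ M : ℕ, ∃ N : ℕ, M ≤ N ∧
  (#{n ∈ Icc 1 N | (harmonic n).den = LL n} : ℝ) ≤ ε * N

end Pool.Agent.D14
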