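import Pool.Agent.MP_7915da_nt.D14.Defs

/-! Two close numerators of harmonic numbers share no large prime power. -/

namespace Pool.Agent.D14

open Finset

theorem gap_frac (d X g : ℕ) (h : d + g ≤ X) : ∃ e P : ℕ, 0 < P ∧ P ≤ X ^ g ∧
    e * X ≤ g * X ^ g ∧ (0 < g → 0 < e) ∧ (harmonic (d + g) - harmonic d) * (P : ℚ) = e := by
  induction g with
  | zero => exact ⟨0, 1, by simp⟩
  | succ g ih =>
    obtain ⟨e, P, h0, h1, h2, -, h4⟩ := ih (by omega)
    have hX : d + g + 1 ≤ X := by omega
    refine ⟨e * (d + g + 1) + P, P * (d + g + 1), by positivity, ?_, ?_, fun _ => by omega, ?_⟩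
    · rw [pow_succ]; exact Nat.mul_le_mul h1 hX
    · calc (e * (d + g + 1) + P) * X = e * X * (d + g + 1) + P * X := by ring
        _ ≤ g * X ^ g * X + X ^ g * X :=
          Nat.add_le_add (Nat.mul_le_mul h2 hX) (Nat.mul_le_mul_right _ h1)
        _ = (g + 1) * X ^ (g + 1) := by ring
    · have hne : ((d : ℚ) + g + 1) ≠ 0 := by positivity
      rw [← add_assoc, harmonic_succ]
      push_cast
      rw [← h4]
      field_simp
      ring

theorem gap_row : GAP_s := by
  intro p w d d' X hp hd hX h1 h2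
  obtain ⟨g, rfl⟩ : ∃ g, d' = d + g := ⟨d' - d, by omega⟩
  obtain ⟨e, P, h0, -, h3, h4, h5⟩ := gap_frac d X g hX
  rw [Nat.add_sub_cancel_left]
  have he : e ≤ X ^ g := by
    refine Nat.le_of_mul_le_mul_right (h3.trans ?_) (show 0 < X by omega)
    rw [mul_comm]
    exact Nat.mul_le_mul_left _ (by omega)
  refine le_trans (Nat.le_of_dvd (h4 (by omega)) ?_) he
  unfold an at h1 h2
  generalize harmonic (d + g) = y at h2 h5
  generalize harmonic d = x at h1 h5
  have c1 : (p ^ w).Coprime x.den := Nat.Coprime.coprime_dvd_left h1 x.reduced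
  have c2 : (p ^ w).Coprime y.den := Nat.Coprime.coprime_dvd_left h2 y.reduced
  have k : (y.num * x.den - x.num * y.den) * (P : ℤ) = (e * (x.den * y.den) : ℕ) := by
    have kx := Rat.mul_den_eq_num x
    have ky := Rat.mul_den_eq_num y
    have : ((y.num : ℚ) * x.den - x.num * y.den) * P = e * (x.den * y.den) := by
      rw [← kx, ← ky, ← h5]; ring
    exact_mod_cast this
  refine (Nat.Coprime.mul_right c1 c2).dvd_of_dvd_mul_right ?_
  rw [← Int.natCast_dvd_natCast, ← k]
  exact Dvd.dvd.mul_right (dvd_sub ((Int.natCast_dvd.2 h2).mul_right _)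
    ((Int.natCast_dvd.2 h1).mul_right _)) _

end Pool.Agent.D14
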