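import Pool.Agent.MP_7915da_nt.D14.Defs

namespace Pool.Agent.D14

open Finset

theorem lcm_pos (d : ℕ) : 0 < LL d := by
  refine Nat.pos_of_ne_zero fun h => ?_
  unfold LL at h
  rw [Finset.lcm_eq_zero_iff] at h
  obtain ⟨i, hi, e⟩ := h
  have := (Finset.mem_Icc.1 hi).1
  simp only [id] at e
  omega

theorem lcm_cb (d m : ℕ) (hm : 0 < m) (h : 2 * m ≤ d) : Nat.centralBinom m ∣ LL d := by
  refine (Nat.dvd_iff_prime_pow_dvd_dvd _ _).2 fun p k hp hk => ?_
  have h0 : Nat.centralBinom m ≠ 0 := Nat.centralBinom_ne_zero m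
  have h1 : k ≤ (Nat.centralBinom m).factorization p := (hp.pow_dvd_iff_le_factorization h0).1 hk
  have h2 : p ^ (Nat.centralBinom m).factorization p ≤ 2 * m := by
    rw [Nat.centralBinom_eq_two_mul_choose]
    exact Nat.pow_factorization_choose_le (by omega)
  have h3 : p ^ k ≤ d := ((Nat.pow_le_pow_right hp.pos h1).trans h2).trans h
  have h4 : p ^ k ∈ Icc 1 d := Finset.mem_Icc.2 ⟨pow_pos hp.pos k, h3⟩
  exact Finset.dvd_lcm (f := id) h4

theorem lcm_row : LCM_s := by
  intro d hd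
  have hL := lcm_pos d
  rcases Nat.eq_zero_or_pos (d / 2) with h0 | h0
  · have e : d = 1 := by omega
    subst e
    omega
  have h1 := Nat.four_pow_le_two_mul_self_mul_centralBinom (d / 2) h0
  have h2 := Nat.le_of_dvd hL (lcm_cb d (d / 2) h0 (by omega))
  have h3 : 2 ^ d ≤ 2 * 4 ^ (d / 2) := by
    rw [show (4 : ℕ) = 2 ^ 2 by norm_num, ← pow_mul, ← pow_succ']
    exact Nat.pow_le_pow_right (by norm_num) (by omega)
  have h4 : 2 * (d / 2) * Nat.centralBinom (d / 2) ≤ d * LL d := Nat.mul_le_mul (by omega) h2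
  rw [mul_assoc]
  omega

end Pool.Agent.D14

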