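import Pool.Agent.MP_7915da_nt.D14.Defs

namespace Pool.Agent.D14

open Finset

theorem REL_row (hS : SPLIT_s) : REL_s := by
  intro p d hR hd
  obtain ⟨hp, hpd, hden⟩ := hR
  have hlog : Nat.log p d = 1 := by
    refine Nat.log_eq_of_pow_le_of_lt_pow ?_ ?_
    · simpa using hpd
    · simpa using hd
  rw [hlog, pow_one] at hden
  obtain ⟨u, v, hv, h⟩ := hS p 0 d hp
  simp only [zero_add, pow_one, pow_zero, one_mul] at h
  have hp0 : (p : ℚ) ≠ 0 := by exact_mod_cast hp.ne_zero
  have hv0 : (v : ℚ) ≠ 0 := by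
    have : v ≠ 0 := by rintro rfl; exact hv (dvd_zero p)
    exact_mod_cast this
  have e1 : harmonic d = ((harmonic d).num : ℚ) / ((harmonic d).den : ℚ) :=
    (Rat.num_div_den _).symm
  have e2 : harmonic (d / p) = ((harmonic (d / p)).num : ℚ) / ((harmonic (d / p)).den : ℚ) :=
    (Rat.num_div_den _).symm
  unfold an
  have hb : ((harmonic d).den : ℚ) ≠ 0 := by exact_mod_cast (harmonic d).den_nz
  have hb' : ((harmonic (d / p)).den : ℚ) ≠ 0 := by exact_mod_cast (harmonic (d / p)).den_nz
  generalize (harmonic d).num = a at e1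
  generalize (harmonic d).den = b at e1 hden hb
  generalize (harmonic (d / p)).num = a' at e2 ⊢
  generalize (harmonic (d / p)).den = b' at e2 hb'
  rw [e1, e2] at h
  have h1 : (a' : ℚ) * ((b : ℚ) * v) = p * ((a * v - u * b) * b') := by
    field_simp at h
    linear_combination -h
  have h2 : a' * ((b : ℤ) * v) = p * ((a * v - u * b) * b') := by exact_mod_cast h1
  have h3 : p ∣ a'.natAbs * (b * v) := by
    have h4 : (p : ℤ) ∣ a' * ((b : ℤ) * v) := ⟨_, h2⟩
    have h5 := Int.natAbs_dvd_natAbs.2 h4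
    simpa [Int.natAbs_mul] using h5
  rcases (Nat.Prime.dvd_mul hp).1 h3 with h6 | h6
  · exact h6
  · rcases (Nat.Prime.dvd_mul hp).1 h6 with h7 | h7
    · exact absurd h7 hden
    · exact absurd h7 hv

end Pool.Agent.D14
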