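import Pool.Agent.MP_7915da_nt.D14.Defs

namespace Pool.Agent.D14

open Finset

theorem SPLIT_row : SPLIT_s := by
  intro p k n hp
  have hp0 : (p : ℚ) ≠ 0 := by exact_mod_cast hp.ne_zero
  induction n with
  | zero => exact ⟨0, 1, hp.not_dvd_one, by simp⟩
  | succ n ih =>
    obtain ⟨u, v, hv, ih⟩ := ih
    have hv0 : (v : ℚ) ≠ 0 := by
      have : v ≠ 0 := by rintro rfl; exact hv (dvd_zero p)
      exact_mod_cast this
    by_cases h : p ^ (k + 1) ∣ n + 1
    · refine ⟨u, v, hv, ?_⟩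
      have h1 : (n + 1) / p ^ (k + 1) = n / p ^ (k + 1) + 1 := Nat.succ_div_of_dvd h
      have h2 : n + 1 = p ^ (k + 1) * (n / p ^ (k + 1) + 1) := by
        rw [← h1, Nat.mul_div_cancel' h]
      have h3 : ((n + 1 : ℕ) : ℚ) = (p : ℚ) ^ (k + 1) * ((n / p ^ (k + 1) + 1 : ℕ) : ℚ) := by
        exact_mod_cast h2
      have h4 : ((n / p ^ (k + 1) + 1 : ℕ) : ℚ) ≠ 0 :=
        Nat.cast_ne_zero.2 (Nat.succ_ne_zero _)
      rw [h1, harmonic_succ, harmonic_succ, ih, h3]
      field_simp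
      ring
    · have h1 : (n + 1) / p ^ (k + 1) = n / p ^ (k + 1) := Nat.succ_div_of_not_dvd h
      obtain ⟨j, m, hm, hjm⟩ := Nat.exists_eq_pow_mul_and_not_dvd (Nat.succ_ne_zero n) p hp.ne_one
      have hj : j ≤ k := by
        by_contra hc
        refine h ?_
        have h5 : n + 1 = p ^ j * m := hjm
        rw [h5]
        exact Dvd.dvd.mul_right (pow_dvd_pow p (by omega)) m
      obtain ⟨i, rfl⟩ := Nat.exists_eq_add_of_le hj
      have hm0 : (m : ℚ) ≠ 0 := by
        have : m ≠ 0 := by rintro rfl; exact hm (dvd_zero p)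
        exact_mod_cast this
      have h3 : ((n + 1 : ℕ) : ℚ) = (p : ℚ) ^ j * m := by exact_mod_cast hjm
      refine ⟨u * m + (p : ℤ) ^ i * v, v * m, fun hd => ?_, ?_⟩
      · rcases (Nat.Prime.dvd_mul hp).1 hd with h6 | h6
        · exact hv h6
        · exact hm h6
      · rw [h1, harmonic_succ, ih, h3]
        push_cast
        field_simp
        ring

end Pool.Agent.D14
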