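import Pool.Agent.MP_7915da_nt.D14.Defs

namespace Pool.Agent.D14

open Finset

theorem sum_cnt (hG : GAP_s) {p X : ℕ} (hp : p.Prime) (hX : 2 ≤ X) (g : ℕ) :
    #{d ∈ Icc 1 X | X ^ g < p ^ (an d).factorization p} ≤ X / (g + 1) + 1 := by
  have key : ∀ d d' : ℕ, d < d' → d' ≤ X → X ^ g < p ^ (an d).factorization p →
      X ^ g < p ^ (an d').factorization p → d / (g + 1) ≠ d' / (g + 1) := by
    intro d d' h1 h2 h3 h4 h5
    have h6 : d' - d ≤ g := by
      have a1 := Nat.div_add_mod d (g + 1)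
      have a2 := Nat.div_add_mod d' (g + 1)
      have a3 := Nat.mod_lt d' (show 0 < g + 1 by omega)
      rw [h5] at a1
      omega
    have h7 := hG p (min ((an d).factorization p) ((an d').factorization p)) d d' X hp h1 h2
      ((pow_dvd_pow p (min_le_left _ _)).trans (Nat.ordProj_dvd _ _))
      ((pow_dvd_pow p (min_le_right _ _)).trans (Nat.ordProj_dvd _ _))
    have h8 : X ^ (d' - d) ≤ X ^ g := Nat.pow_le_pow_right (by omega) h6
    rcases min_choice ((an d).factorization p) ((an d').factorization p) with e | e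
    · rw [e] at h7
      omega
    · rw [e] at h7
      omega
  rw [← card_range (X / (g + 1) + 1)]
  refine card_le_card_of_injOn (fun d => d / (g + 1)) (fun d hd => ?_) fun d hd d' hd' e => ?_
  · have h1 := (mem_Icc.1 (mem_filter.1 (mem_coe.1 hd)).1).2
    exact mem_coe.2 (mem_range.2 (Nat.lt_succ_of_le (Nat.div_le_div_right h1)))
  · obtain ⟨a1, a2⟩ := mem_filter.1 (mem_coe.1 hd)
    obtain ⟨b1, b2⟩ := mem_filter.1 (mem_coe.1 hd')
    rcases lt_trichotomy d d' with h | h | h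
    · exact absurd e (key d d' h (mem_Icc.1 b1).2 a2 b2)
    · exact h
    · exact absurd e.symm (key d' d h (mem_Icc.1 a1).2 b2 a2)

theorem sum_pt (hG : GAP_s) {p X d : ℕ} (hp : p.Prime) (hX : 2 ≤ X) (h1 : 1 ≤ d) (h2 : d ≤ X) :
    ((an d).factorization p : ℝ) * Real.log p ≤
      (#{g ∈ range X | X ^ g < p ^ (an d).factorization p} : ℝ) * Real.log X := by
  have h0 : an 0 = 0 := by simp [an]
  have h3 := hG p ((an d).factorization p) 0 d X hp h1 h2 (h0 ▸ dvd_zero _) (Nat.ordProj_dvd _ _)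
  have h4 : ∃ g, p ^ (an d).factorization p ≤ X ^ g := ⟨_, h3⟩
  have h5 : Nat.find h4 ≤ X := (Nat.find_min' h4 h3).trans (by omega)
  have h6 : Nat.find h4 ≤ #{g ∈ range X | X ^ g < p ^ (an d).factorization p} := by
    conv_lhs => rw [← card_range (Nat.find h4)]
    refine card_le_card fun g hg => mem_filter.2 ⟨mem_range.2 ?_, ?_⟩
    · exact (mem_range.1 hg).trans_le h5
    · exact not_le.1 (Nat.find_min h4 (mem_range.1 hg))
  have h7 : p ^ (an d).factorization p ≤
      X ^ #{g ∈ range X | X ^ g < p ^ (an d).factorization p} :=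
    (Nat.find_spec h4).trans (Nat.pow_le_pow_right (by omega) h6)
  rw [← Real.log_pow, ← Real.log_pow]
  refine Real.log_le_log (pow_pos (Nat.cast_pos.2 hp.pos) _) ?_
  exact_mod_cast h7

theorem sum_row (hG : GAP_s) : SUM_s := by
  intro p X hp hX
  have hL : 0 ≤ Real.log X := Real.log_natCast_nonneg X
  have h1 : ∑ d ∈ Icc 1 X, #{g ∈ range X | X ^ g < p ^ (an d).factorization p} =
      ∑ g ∈ range X, #{d ∈ Icc 1 X | X ^ g < p ^ (an d).factorization p} := by
    simp only [card_filter]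
    exact sum_comm
  have h2 : (∑ g ∈ range X, (#{d ∈ Icc 1 X | X ^ g < p ^ (an d).factorization p} : ℝ)) ≤
      X * (2 + Real.log X) := by
    have a1 : ∀ g ∈ range X, (#{d ∈ Icc 1 X | X ^ g < p ^ (an d).factorization p} : ℝ) ≤
        X * ((g + 1 : ℕ) : ℝ)⁻¹ + 1 := fun g _ => by
      have b1 : (#{d ∈ Icc 1 X | X ^ g < p ^ (an d).factorization p} : ℝ) ≤
          ((X / (g + 1) : ℕ) : ℝ) + 1 := by exact_mod_cast sum_cnt hG hp hX g
      have b2 : ((X / (g + 1) : ℕ) : ℝ) ≤ (X : ℝ) / ((g + 1 : ℕ) : ℝ) := Nat.cast_div_le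
      rw [div_eq_mul_inv] at b2
      linarith
    refine (sum_le_sum a1).trans ?_
    have a2 := harmonic_le_one_add_log X
    have a3 : (harmonic X : ℝ) = ∑ g ∈ range X, ((g + 1 : ℕ) : ℝ)⁻¹ := by
      simp [harmonic]
    rw [sum_add_distrib, ← mul_sum, ← a3, sum_const, card_range, nsmul_eq_mul, mul_one]
    have a4 : (0 : ℝ) ≤ X := Nat.cast_nonneg X
    nlinarith
  calc ∑ d ∈ Icc 1 X, ((an d).factorization p : ℝ) * Real.log p
      ≤ ∑ d ∈ Icc 1 X,
          (#{g ∈ range X | X ^ g < p ^ (an d).factorization p} : ℝ) * Real.log X :=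
        sum_le_sum fun d hd => sum_pt hG hp hX (mem_Icc.1 hd).1 (mem_Icc.1 hd).2
    _ = (∑ g ∈ range X, (#{d ∈ Icc 1 X | X ^ g < p ^ (an d).factorization p} : ℝ)) *
          Real.log X := by
        rw [← sum_mul]
        exact congrArg (· * Real.log X) (by exact_mod_cast h1)
    _ ≤ X * (2 + Real.log X) * Real.log X := mul_le_mul_of_nonneg_right h2 hL

end Pool.Agent.D14
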