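import Pool.Agent.MP_7915da_nt.D14.Defs

namespace Pool.Agent.D14

open Finset

theorem top_cnt (s : Finset ℕ) (a b : ℝ) (ha : 0 ≤ a) (hab : a ≤ b)
    (h : ∀ n ∈ s, a ≤ n ∧ (n : ℝ) < b) : (#s : ℝ) ≤ b - a + 1 := by
  have hsub : s ⊆ Ico ⌈a⌉₊ ⌈b⌉₊ := fun n hn => by
    rw [mem_Ico]
    exact ⟨Nat.ceil_le.2 (h n hn).1, Nat.lt_ceil.2 (h n hn).2⟩
  have h1 := card_le_card hsub
  rw [Nat.card_Ico] at h1
  have h2 : ⌈a⌉₊ ≤ ⌈b⌉₊ := Nat.ceil_mono hab
  have h3 : (#s : ℝ) ≤ (⌈b⌉₊ : ℝ) - ⌈a⌉₊ := by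
    rw [← Nat.cast_sub h2]
    exact_mod_cast h1
  have h4 := Nat.ceil_lt_add_one (ha.trans hab)
  have h5 := Nat.le_ceil a
  linarith

theorem top_one : ¬Good 1 := by
  rintro ⟨p, hp, -, h⟩
  have : an 1 = 1 := by simp [an, harmonic]
  rw [this] at h
  exact hp.one_lt.ne' (Nat.dvd_one.1 h)

theorem top_row (hB : BAD_s) (hD : DIR_s) (hC : COV_s) : TOP_s := by
  classical
  intro ε hε M
  set η := ε / 12 with hη
  have hη0 : 0 < η := by positivity
  obtain ⟨X, hX, hbad⟩ := hB η hη0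
  have hX0 : (1 : ℝ) ≤ X := by exact_mod_cast hX
  have hone : (1 : ℝ) ≤ η * X := by
    refine le_trans ?_ hbad
    have : 1 ≤ #{d ∈ Icc 1 X | ¬Good d} :=
      card_pos.2 ⟨1, mem_filter.2 ⟨mem_Icc.2 ⟨le_rfl, hX⟩, top_one⟩⟩
    exact_mod_cast this
  have hG : ∀ d, Good d → ∃ p : ℕ, p.Prime ∧ d < p ∧ p ∣ an d := fun d h => h
  choose! P hP using hG
  obtain ⟨t, ht, hk⟩ := hD (image P {d ∈ Icc 1 X | Good d}) (by
    intro p hp
    obtain ⟨d, hd, rfl⟩ := mem_image.1 hp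
    exact (hP d (mem_filter.1 hd).2).1.two_le) (η / X) (M + 3 + 1 / η) (by positivity)
  have hM0 : (0 : ℝ) ≤ M := Nat.cast_nonneg M
  have hi : 0 < 1 / η := by positivity
  have ht3 : 3 ≤ t := by linarith
  have ht0 : 0 < t := by linarith
  have hηt : 1 ≤ η * t := by
    have : 1 / η ≤ t := by linarith
    rwa [div_le_iff₀ hη0, mul_comm] at this
  have hXt : t ≤ X * t := le_mul_of_one_le_left ht0.le hX0
  have hN1 : X * t - 1 ≤ (⌊X * t⌋₊ : ℝ) := (Nat.sub_one_lt_floor _).le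
  have hN2 : (⌊X * t⌋₊ : ℝ) ≤ X * t := Nat.floor_le (by positivity)
  refine ⟨⌊X * t⌋₊, Nat.le_floor (by linarith), ?_⟩
  set E := {n ∈ Icc 1 ⌊X * t⌋₊ | (harmonic n).den = LL n} with hE
  have hmap : ∀ n ∈ E, ⌊(n : ℝ) / t⌋₊ ∈ range (X + 1) := by
    intro n hn
    have h1 : (n : ℝ) ≤ ⌊X * t⌋₊ := by exact_mod_cast (mem_Icc.1 (mem_filter.1 hn).1).2
    rw [mem_range, Nat.lt_succ_iff]
    apply Nat.floor_le_of_le
    rw [div_le_iff₀ ht0]
    linarith
  have hfib : ∀ d ∈ range (X + 1), (#(E.filter fun n : ℕ => ⌊(n : ℝ) / t⌋₊ = d) : ℝ) ≤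
      (η * t + 1) + if 1 ≤ d ∧ Good d then 0 else t + 1 := by
    intro d hd
    have hdX : (d : ℝ) ≤ X := by exact_mod_cast Nat.lt_succ_iff.1 (mem_range.1 hd)
    have hd0 : (0 : ℝ) ≤ d := Nat.cast_nonneg d
    have hb : ∀ n ∈ (E.filter fun n : ℕ => ⌊(n : ℝ) / t⌋₊ = d), d * t ≤ n ∧ (n : ℝ) < (d + 1) * t := by
      intro n hn
      have h1 := (mem_filter.1 hn).2
      rw [Nat.floor_eq_iff (by positivity), le_div_iff₀ ht0, div_lt_iff₀ ht0] at h1
      exact h1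
    split_ifs with hg
    · obtain ⟨k, hk1, hk2⟩ := hk (P d) (mem_image_of_mem P (mem_filter.2
        ⟨mem_Icc.2 ⟨hg.1, Nat.lt_succ_iff.1 (mem_range.1 hd)⟩, hg.2⟩))
      obtain ⟨hp, -, hdv⟩ := hP d hg.2
      obtain ⟨k, rfl⟩ : ∃ j, k = j + 1 := by
        refine Nat.exists_eq_succ_of_ne_zero ?_
        rintro rfl
        rw [pow_zero] at hk1
        linarith
      have hle : d * (η / X) ≤ η := by
        rw [← mul_div_assoc, div_le_iff₀ (by linarith)]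
        nlinarith
      have := top_cnt (E.filter fun n : ℕ => ⌊(n : ℝ) / t⌋₊ = d) (d * t) (d * t + η * t) (by positivity)
        (by nlinarith) (by
          intro n hn
          refine ⟨(hb n hn).1, ?_⟩
          by_contra hcon
          rw [not_lt] at hcon
          refine hC (P d) d k n hp hg.1 hdv ?_ ?_ (mem_filter.1 (mem_filter.1 hn).1).2
          · have h1 : (d : ℝ) * (P d : ℝ) ^ (k + 1) ≤ d * ((1 + η / X) * t) :=
              mul_le_mul_of_nonneg_left hk2 hd0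
            have h2 : (d : ℝ) * (η / X) * t ≤ η * t := mul_le_mul_of_nonneg_right hle ht0.le
            have h3 : (d : ℝ) * (P d : ℝ) ^ (k + 1) ≤ n := by nlinarith
            exact_mod_cast h3
          · have h1 : ((d : ℝ) + 1) * t ≤ (d + 1) * (P d : ℝ) ^ (k + 1) :=
              mul_le_mul_of_nonneg_left hk1 (by linarith)
            have h3 : (n : ℝ) < (d + 1) * (P d : ℝ) ^ (k + 1) := (hb n hn).2.trans_le h1
            exact_mod_cast h3)
      linarith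
    · have := top_cnt (E.filter fun n : ℕ => ⌊(n : ℝ) / t⌋₊ = d) (d * t) ((d + 1) * t) (by positivity)
        (by nlinarith) hb
      nlinarith
  have hsum : (#E : ℝ) = ∑ d ∈ range (X + 1), (#(E.filter fun n : ℕ => ⌊(n : ℝ) / t⌋₊ = d) : ℝ) := by
    rw [card_eq_sum_card_fiberwise (f := fun n : ℕ => ⌊(n : ℝ) / t⌋₊) (t := range (X + 1))
      (fun n hn => hmap n hn)]
    push_cast
    rfl
  have hcard : (#{d ∈ range (X + 1) | ¬(1 ≤ d ∧ Good d)} : ℝ) ≤ η * X + 1 := by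
    have hs : {d ∈ range (X + 1) | ¬(1 ≤ d ∧ Good d)} ⊆ insert 0 {d ∈ Icc 1 X | ¬Good d} := by
      intro d hd
      rw [mem_filter, mem_range] at hd
      rw [mem_insert, mem_filter, mem_Icc]
      by_cases h0 : d = 0
      · exact Or.inl h0
      · exact Or.inr ⟨⟨by omega, by omega⟩, fun h => hd.2 ⟨by omega, h⟩⟩
    have h1 := (card_le_card hs).trans (card_insert_le _ _)
    have h2 : (#{d ∈ range (X + 1) | ¬(1 ≤ d ∧ Good d)} : ℝ) ≤
        #{d ∈ Icc 1 X | ¬Good d} + 1 := by exact_mod_cast h1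
    linarith
  have hs2 : ∑ d ∈ range (X + 1), ((η * t + 1) + if 1 ≤ d ∧ Good d then (0 : ℝ) else t + 1) =
      (X + 1) * (η * t + 1) + #{d ∈ range (X + 1) | ¬(1 ≤ d ∧ Good d)} * (t + 1) := by
    rw [sum_add_distrib, sum_const, card_range, sum_ite, sum_const_zero, sum_const, zero_add,
      nsmul_eq_mul, nsmul_eq_mul]
    push_cast
    rfl
  have h1 := sum_le_sum hfib
  rw [← hsum, hs2] at h1
  have h2 : ((X : ℝ) + 1) * (η * t + 1) ≤ (2 * X) * (2 * (η * t)) :=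
    mul_le_mul (by linarith) (by linarith) (by positivity) (by positivity)
  have h3 : (#{d ∈ range (X + 1) | ¬(1 ≤ d ∧ Good d)} : ℝ) * (t + 1) ≤ (2 * (η * X)) * (2 * t) :=
    mul_le_mul (by linarith) (by linarith) (by positivity) (by positivity)
  have h4 : 2 / 3 * (X * t) ≤ (⌊X * t⌋₊ : ℝ) := by linarith
  have h5 : ε = 12 * η := by rw [hη]; ring
  have h6 : η * (2 / 3 * (X * t)) ≤ η * (⌊X * t⌋₊ : ℝ) := mul_le_mul_of_nonneg_left h4 hη0.le
  rw [h5]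
  nlinarith

end Pool.Agent.D14
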