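import Pool.Agent.MP_7915da_nt.D14.LCM
import Pool.Agent.MP_7915da_nt.D14.DEN
import Pool.Agent.MP_7915da_nt.D14.SPLIT
import Pool.Agent.MP_7915da_nt.D14.REL
import Pool.Agent.MP_7915da_nt.D14.COV
import Pool.Agent.MP_7915da_nt.D14.GAP
import Pool.Agent.MP_7915da_nt.D14.CNT
import Pool.Agent.MP_7915da_nt.D14.SUM
import Pool.Agent.MP_7915da_nt.D14.BAD
import Pool.Agent.MP_7915da_nt.D14.DIR
import Pool.Agent.MP_7915da_nt.D14.TOP

namespace Pool.Agent.D14

theorem top : TOP_s :=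
  top_row (bad_row lcm_row den_row (cnt_row (REL_row SPLIT_row)) (sum_row gap_row)) DIR_row
    (cov_row SPLIT_row)

end Pool.Agent.D14
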